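import Pool.Agent.Helper55.SCH.Goals

set_option autoImplicit false

/-!
# Project SCH (MP_c13f7d_co): packet RED0
-/

namespace Pool.Agent.Helper39.SCH

open Finset Pool.Agent.Helper33.Schur Pool.Agent.Helper55.SCH

lemma ord_le (N : ℕ) (χ : ℕ → Fin 3) :
    ((Icc 1 N ×ˢ Icc 1 N).filter
      (fun q : ℕ × ℕ => q.1 + q.2 ≤ N ∧ χ q.1 = χ q.2 ∧ χ q.2 = χ (q.1 + q.2))).card
      ≤ 2 * schurMono χ N := by
  set A := (Icc 1 N ×ˢ Icc 1 N).filter
    (fun q : ℕ × ℕ => q.1 + q.2 ≤ N ∧ χ q.1 = χ q.2 ∧ χ q.2 = χ (q.1 + q.2)) with hA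
  set U := (Icc 1 N ×ˢ Icc 1 N).filter
    (fun q : ℕ × ℕ => q.1 ≤ q.2 ∧ q.1 + q.2 ≤ N ∧ χ q.1 = χ q.2 ∧ χ q.2 = χ (q.1 + q.2)) with hU
  have h1 : A ⊆ U ∪ U.image (fun q => (q.2, q.1)) := by
    intro q hq
    rw [hA, mem_filter, mem_product] at hq
    obtain ⟨⟨m1, m2⟩, s, c1, c2⟩ := hq
    rw [mem_union]
    rcases le_total q.1 q.2 with h | h
    · left
      rw [hU, mem_filter, mem_product]
      exact ⟨⟨m1, m2⟩, h, s, c1, c2⟩
    · right
      rw [mem_image]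
      refine ⟨(q.2, q.1), ?_, rfl⟩
      rw [hU, mem_filter, mem_product]
      refine ⟨⟨m2, m1⟩, h, by simpa [add_comm] using s, c1.symm, ?_⟩
      simp only
      rw [add_comm]
      exact c1.trans c2
  have h3 : schurMono χ N = U.card := rfl
  rw [h3]
  refine (card_le_card h1).trans ((card_union_le _ _).trans ?_)
  have := card_image_le (s := U) (f := fun q : ℕ × ℕ => (q.2, q.1))
  omega

lemma col3 : ∀ k i j : Fin 3, i ≠ k → j ≠ k →
    decide (i = k + 1) = decide (j = k + 1) → i = j := by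
  decide

theorem goalRED0 : G_RED0 := by
  intro n c d χ k hk
  have hcol := col3 k
  refine ⟨fun x => decide (χ x = k + 1), fun _ => true, ?_⟩
  have hT : T (min c n) 0 (fun x => decide (χ x = k + 1)) (fun _ => true) ≤ 2 * schurMono χ n := by
    refine le_trans ?_ (ord_le n χ)
    unfold T
    have hz : ((Icc 1 (min c n) ×ˢ Icc 1 0).filter
        (fun q : ℕ × ℕ => q.1 + q.2 ≤ 0 ∧ decide (χ q.1 = k + 1) = true ∧ true = true)).card = 0 := by
      simp
    rw [hz, mul_zero, add_zero]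
    apply card_le_card
    intro q hq
    rw [mem_filter, mem_product, mem_Icc, mem_Icc] at hq
    obtain ⟨⟨⟨h1, h2⟩, h3, h4⟩, h5, h6, h7⟩ := hq
    have hne : ∀ x, 1 ≤ x → x ≤ min c n → χ x ≠ k := by
      intro x hx1 hx2 hx
      have := (hk x (mem_Icc.2 ⟨hx1, hx2.trans (min_le_right _ _)⟩)).1 hx
      have := hx2.trans (min_le_left _ _)
      omega
    have hn : min c n ≤ n := min_le_right _ _
    rw [mem_filter, mem_product, mem_Icc, mem_Icc]
    refine ⟨⟨⟨h1, h2.trans hn⟩, h3, h4.trans hn⟩, h5.trans hn, ?_, ?_⟩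
    · exact hcol _ _ (hne _ h1 h2) (hne _ h3 h4) h6
    · exact hcol _ _ (hne _ h3 h4) (hne _ (by omega) h5) h7
  have hT' : ((T (min c n) 0 (fun x => decide (χ x = k + 1)) (fun _ => true) : ℕ) : ℝ)
      ≤ 2 * schurMono χ n := by exact_mod_cast hT
  linarith

end Pool.Agent.Helper39.SCH
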